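import Mathlib

/-! Window pairs: definitions and the autocorrelation lemma. -/

set_option autoImplicit false

open Complex Finset

namespace Pool.Agent.V5helper29.WP

/-- `p_a(z) = ∑_{k ≤ n} a(k) z^k`. -/
def poly (n : ℕ) (a : ℕ → ℂ) (z : ℂ) : ℂ := ∑ k ∈ range (n + 1), a k * z ^ k

/-- The spectral magnitude `ω ↦ |p_a(e^{iω})|`. -/
noncomputable def specMag (n : ℕ) (a : ℕ → ℂ) (ω : ℝ) : ℝ :=
  ‖poly n a (Complex.exp (ω * Complex.I))‖

lemma poly_add (n : ℕ) (a b : ℕ → ℂ) (z : ℂ) :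
    poly n (fun k => a k + b k) z = poly n a z + poly n b z := by
  unfold poly
  rw [← sum_add_distrib]
  exact sum_congr rfl fun k _ => by ring

lemma poly_smul (n : ℕ) (c : ℂ) (a : ℕ → ℂ) (z : ℂ) :
    poly n (fun k => c * a k) z = c * poly n a z := by
  unfold poly
  rw [mul_sum]
  exact sum_congr rfl fun k _ => by ring

/-- The vector with the single entry `α` at `i`. -/
def sg (i : ℕ) (α : ℂ) : ℕ → ℂ := fun k => if k = i then α else 0

lemma sg_self (i : ℕ) (α : ℂ) : sg i α i = α := by simp [sg]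

lemma sg_ne {i k : ℕ} (h : k ≠ i) (α : ℂ) : sg i α k = 0 := by simp [sg, h]

lemma poly_sg {n i : ℕ} (hi : i ≤ n) (α : ℂ) (w : ℕ → ℂ) (z : ℂ) :
    poly n (fun k => sg i α k * w k) z = α * w i * z ^ i := by
  unfold poly
  rw [sum_eq_single i]
  · show sg i α i * w i * z ^ i = _
    rw [sg_self]
  · intro k _ hk
    show sg i α k * w k * z ^ k = 0
    rw [sg_ne hk]; ring
  · intro h
    exact absurd (mem_range.2 (Nat.lt_succ_of_le hi)) h

/-- the Laurent polynomial `z^n |p_f(z)|^2` on the unit circle -/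
noncomputable def G (n : ℕ) (f : ℕ → ℂ) : Polynomial ℂ :=
  ∑ k ∈ range (n + 1), ∑ l ∈ range (n + 1),
    Polynomial.C (f k * starRingEnd ℂ (f l)) * Polynomial.X ^ (n + k - l)

lemma conj_eq_inv {z : ℂ} (hz : ‖z‖ = 1) : z * starRingEnd ℂ z = 1 := by
  rw [Complex.mul_conj, Complex.normSq_eq_norm_sq, hz]; simp

lemma eval_G (n : ℕ) (f : ℕ → ℂ) {z : ℂ} (hz : ‖z‖ = 1) :
    (G n f).eval z = z ^ n * ((‖poly n f z‖ : ℂ) ^ 2) := by
  have h1 : ((‖poly n f z‖ : ℂ) ^ 2) = poly n f z * starRingEnd ℂ (poly n f z) := by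
    rw [Complex.mul_conj, Complex.normSq_eq_norm_sq]; push_cast; rfl
  rw [h1]
  unfold G poly
  rw [Polynomial.eval_finsetSum, map_sum, sum_mul_sum, mul_sum]
  refine sum_congr rfl fun k _ => ?_
  rw [Polynomial.eval_finsetSum, mul_sum]
  refine sum_congr rfl fun l hl => ?_
  have hl' : l ≤ n := Nat.lt_succ_iff.1 (mem_range.1 hl)
  rw [Polynomial.eval_mul, Polynomial.eval_C, Polynomial.eval_pow, Polynomial.eval_X, map_mul,
    map_pow]
  have h2 : z ^ (n + k - l) = z ^ n * z ^ k * starRingEnd ℂ z ^ l := by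
    have h3 : z ^ n * z ^ k = z ^ (n + k - l) * z ^ l := by
      rw [← pow_add, ← pow_add]; congr 1; omega
    rw [h3, mul_assoc, ← mul_pow, conj_eq_inv hz, one_pow, mul_one]
  rw [h2]; ring

lemma coeff_G (n : ℕ) (f : ℕ → ℂ) (m : ℕ) :
    (G n f).coeff (n + m) =
      ∑ k ∈ range (n + 1), if m ≤ k then f k * starRingEnd ℂ (f (k - m)) else 0 := by
  unfold G
  rw [Polynomial.finsetSum_coeff]
  refine sum_congr rfl fun k hk => ?_
  have hk' : k ≤ n := Nat.lt_succ_iff.1 (mem_range.1 hk)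
  rw [Polynomial.finsetSum_coeff]
  split_ifs with h
  · rw [sum_eq_single (k - m)]
    · rw [Polynomial.coeff_C_mul_X_pow, if_pos (by omega)]
    · intro l hl hlk
      have hl' : l ≤ n := Nat.lt_succ_iff.1 (mem_range.1 hl)
      rw [Polynomial.coeff_C_mul_X_pow, if_neg (by omega)]
    · intro h'
      exact absurd (mem_range.2 (by omega)) h'
  · refine sum_eq_zero fun l hl => ?_
    have hl' : l ≤ n := Nat.lt_succ_iff.1 (mem_range.1 hl)
    rw [Polynomial.coeff_C_mul_X_pow, if_neg (by omega)]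

lemma norm_exp_I (ω : ℝ) : ‖Complex.exp (ω * Complex.I)‖ = 1 := Complex.norm_exp_ofReal_mul_I ω

lemma infinite_circle : (Set.range fun ω : ℝ => Complex.exp (ω * Complex.I)).Infinite := by
  have h1 : Set.InjOn (fun ω : ℝ => Complex.exp (ω * Complex.I)) (Set.Ioo 0 1) := by
    intro s hs t ht hst
    have h2 : Real.sin s = Real.sin t := by
      have := congrArg Complex.im hst
      simpa [Complex.exp_ofReal_mul_I_im] using this
    have h3 : (1 : ℝ) < Real.pi / 2 := by linarith [Real.pi_gt_three]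
    exact Real.injOn_sin ⟨by linarith [hs.1, Real.pi_pos], by linarith [hs.2]⟩
      ⟨by linarith [ht.1, Real.pi_pos], by linarith [ht.2]⟩ h2
  have h4 : (Set.Ioo (0 : ℝ) 1).Infinite := Set.Ioo_infinite one_pos
  exact ((Set.infinite_image_iff h1).2 h4).mono (Set.image_subset_range _ _)

/-- Equal spectral magnitudes give equal autocorrelations. -/
theorem autocorr {n : ℕ} {f g : ℕ → ℂ} (h : ∀ ω, specMag n f ω = specMag n g ω) (m : ℕ) :
    (∑ k ∈ range (n + 1), if m ≤ k then f k * starRingEnd ℂ (f (k - m)) else 0) =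
      ∑ k ∈ range (n + 1), if m ≤ k then g k * starRingEnd ℂ (g (k - m)) else 0 := by
  have h1 : G n f = G n g := by
    refine Polynomial.eq_of_infinite_eval_eq _ _ (infinite_circle.mono ?_)
    rintro _ ⟨ω, rfl⟩
    show (G n f).eval _ = (G n g).eval _
    rw [eval_G n f (norm_exp_I ω), eval_G n g (norm_exp_I ω)]
    have h2 : ‖poly n f (Complex.exp (ω * Complex.I))‖ =
      ‖poly n g (Complex.exp (ω * Complex.I))‖ := h ω
    rw [h2]
  rw [← coeff_G, ← coeff_G, h1]

end Pool.Agent.V5helper29.WP
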