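import Pool.Agent.V5helper29.WP.Suff

/-! Window pairs: necessity of the criterion. -/

set_option autoImplicit false

open Complex Finset

namespace Pool.Agent.V5helper29.WP

/-- The two spectral magnitudes of the windowed sequences determine the polynomials of degree
exactly `n` up to a unimodular factor. -/
def Determining (n : ℕ) (w₁ w₂ : ℕ → ℂ) : Prop :=
  ∀ a a' : ℕ → ℂ, a n ≠ 0 → a' n ≠ 0 →
    (∀ ω, specMag n (fun k => a k * w₁ k) ω = specMag n (fun k => a' k * w₁ k) ω) →
    (∀ ω, specMag n (fun k => a k * w₂ k) ω = specMag n (fun k => a' k * w₂ k) ω) →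
    ∃ c : ℂ, ‖c‖ = 1 ∧ ∀ k, k ≤ n → a' k = c * a k

lemma Determining.symm {n : ℕ} {x z : ℕ → ℂ} (h : Determining n x z) : Determining n z x :=
  fun a b ha hb h1 h2 => h a b ha hb h2 h1

lemma norm_hyper {U V : ℂ} (h : ‖U‖ = ‖V‖) : ‖5 * U + 4 * V‖ = ‖4 * U + 5 * V‖ := by
  have h1 : Complex.normSq U = Complex.normSq V := by
    rw [Complex.normSq_eq_norm_sq, Complex.normSq_eq_norm_sq, h]
  have h2 : Complex.normSq (5 * U + 4 * V) = Complex.normSq (4 * U + 5 * V) := by
    rw [Complex.normSq_apply, Complex.normSq_apply] at h1 ⊢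
    simp only [Complex.add_re, Complex.add_im, Complex.mul_re, Complex.mul_im, Complex.re_ofNat,
      Complex.im_ofNat]
    linear_combination 9 * h1
  rw [Complex.normSq_eq_norm_sq, Complex.normSq_eq_norm_sq] at h2
  exact (pow_left_inj₀ (norm_nonneg _) (norm_nonneg _) two_ne_zero).1 h2

lemma norm_orth {U V : ℂ} (h : (U * starRingEnd ℂ V).re = 0) : ‖U + V‖ = ‖U - V‖ := by
  have h2 : Complex.normSq (U + V) = Complex.normSq (U - V) := by
    rw [Complex.normSq_add, Complex.normSq_sub, h]; ring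
  rw [Complex.normSq_eq_norm_sq, Complex.normSq_eq_norm_sq] at h2
  exact (pow_left_inj₀ (norm_nonneg _) (norm_nonneg _) two_ne_zero).1 h2

lemma norm_lag {A B C F ζ : ℂ} (hζ : ‖ζ‖ = 1)
    (h1 : ‖A‖ ^ 2 + ‖B‖ ^ 2 = ‖C‖ ^ 2 + ‖F‖ ^ 2)
    (h2 : B * starRingEnd ℂ A = F * starRingEnd ℂ C) : ‖A + B * ζ‖ = ‖C + F * ζ‖ := by
  have h3 : Complex.normSq (A + B * ζ) = Complex.normSq (C + F * ζ) := by
    rw [Complex.normSq_add, Complex.normSq_add, Complex.normSq_mul, Complex.normSq_mul,
      Complex.normSq_eq_norm_sq ζ, hζ]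
    have h4 : (A * starRingEnd ℂ (B * ζ)) = starRingEnd ℂ (B * starRingEnd ℂ A * ζ) := by
      simp only [map_mul, Complex.conj_conj]; ring
    have h5 : (C * starRingEnd ℂ (F * ζ)) = starRingEnd ℂ (F * starRingEnd ℂ C * ζ) := by
      simp only [map_mul, Complex.conj_conj]; ring
    rw [h4, h5, h2, Complex.normSq_eq_norm_sq, Complex.normSq_eq_norm_sq,
      Complex.normSq_eq_norm_sq, Complex.normSq_eq_norm_sq]
    linear_combination h1
  rw [Complex.normSq_eq_norm_sq, Complex.normSq_eq_norm_sq] at h3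
  exact (pow_left_inj₀ (norm_nonneg _) (norm_nonneg _) two_ne_zero).1 h3

section

variable {n : ℕ} {x z : ℕ → ℂ}

lemma hyper (hd : Determining n x z) (u v : ℕ → ℂ) (hu : u n = 0) (hv : v n ≠ 0) {t : ℕ}
    (ht : t ≤ n) (hut : u t ≠ 0) (hvt : v t = 0)
    (hx : ∀ ω, specMag n (fun k => u k * x k) ω = specMag n (fun k => v k * x k) ω)
    (hz : ∀ ω, specMag n (fun k => u k * z k) ω = specMag n (fun k => v k * z k) ω) : False := by
  have key : ∀ w : ℕ → ℂ,
      (∀ ω, specMag n (fun k => u k * w k) ω = specMag n (fun k => v k * w k) ω) →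
      ∀ ω, specMag n (fun k => (5 * u k + 4 * v k) * w k) ω =
        specMag n (fun k => (4 * u k + 5 * v k) * w k) ω := by
    intro w hw ω
    unfold specMag
    set ζ := Complex.exp (ω * Complex.I)
    have h1 : poly n (fun k => (5 * u k + 4 * v k) * w k) ζ =
        5 * poly n (fun k => u k * w k) ζ + 4 * poly n (fun k => v k * w k) ζ := by
      rw [← poly_smul, ← poly_smul, ← poly_add]
      congr 1
      funext k
      ring
    have h2 : poly n (fun k => (4 * u k + 5 * v k) * w k) ζ =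
        4 * poly n (fun k => u k * w k) ζ + 5 * poly n (fun k => v k * w k) ζ := by
      rw [← poly_smul, ← poly_smul, ← poly_add]
      congr 1
      funext k
      ring
    rw [h1, h2]
    exact norm_hyper (hw ω)
  obtain ⟨c, -, hc⟩ := hd (fun k => 5 * u k + 4 * v k) (fun k => 4 * u k + 5 * v k)
    (by show 5 * u n + 4 * v n ≠ 0; rw [hu]; simpa using hv)
    (by show 4 * u n + 5 * v n ≠ 0; rw [hu]; simpa using hv)
    (key x hx) (key z hz)
  have h1 := hc n le_rfl
  have h2 := hc t ht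
  simp only [hu, hvt, mul_zero, zero_add, add_zero] at h1 h2
  have h3 : c * 4 = 5 := by
    have h4 : (c * 4 - 5) * v n = 0 := by linear_combination -h1
    exact sub_eq_zero.1 ((mul_eq_zero.1 h4).resolve_right hv)
  have h5 : c * 5 = 4 := by
    have h4 : (c * 5 - 4) * u t = 0 := by linear_combination -h2
    exact sub_eq_zero.1 ((mul_eq_zero.1 h4).resolve_right hut)
  have h6 : (9 : ℂ) = 0 := by linear_combination 4 * h5 - 5 * h3
  norm_num at h6

lemma orth (hd : Determining n x z) (u v : ℕ → ℂ) (hu : u n = 0) (hv : v n ≠ 0) {t : ℕ}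
    (ht : t ≤ n) (hut : u t ≠ 0) (hvt : v t = 0)
    (hx : ∀ ω : ℝ, (poly n (fun k => u k * x k) (Complex.exp (ω * Complex.I)) *
      starRingEnd ℂ (poly n (fun k => v k * x k) (Complex.exp (ω * Complex.I)))).re = 0)
    (hz : ∀ ω : ℝ, (poly n (fun k => u k * z k) (Complex.exp (ω * Complex.I)) *
      starRingEnd ℂ (poly n (fun k => v k * z k) (Complex.exp (ω * Complex.I)))).re = 0) :
    False := by
  have key : ∀ w : ℕ → ℂ,
      (∀ ω : ℝ, (poly n (fun k => u k * w k) (Complex.exp (ω * Complex.I)) *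
      starRingEnd ℂ (poly n (fun k => v k * w k) (Complex.exp (ω * Complex.I)))).re = 0) →
      ∀ ω, specMag n (fun k => (u k + v k) * w k) ω = specMag n (fun k => (u k - v k) * w k) ω := by
    intro w hw ω
    unfold specMag
    have hw' := hw ω
    set ζ := Complex.exp (ω * Complex.I)
    have h1 : poly n (fun k => (u k + v k) * w k) ζ =
        poly n (fun k => u k * w k) ζ + poly n (fun k => v k * w k) ζ := by
      rw [← poly_add]
      congr 1
      funext k
      ring
    have h2 : poly n (fun k => (u k - v k) * w k) ζ =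
        poly n (fun k => u k * w k) ζ - poly n (fun k => v k * w k) ζ := by
      have h3 : poly n (fun k => (u k - v k) * w k) ζ =
        poly n (fun k => u k * w k) ζ + (-1) * poly n (fun k => v k * w k) ζ := by
        rw [← poly_smul, ← poly_add]
        congr 1
        funext k
        ring
      rw [h3]; ring
    rw [h1, h2]
    exact norm_orth hw'
  obtain ⟨c, -, hc⟩ := hd (fun k => u k + v k) (fun k => u k - v k)
    (by show u n + v n ≠ 0; rw [hu]; simpa using hv)
    (by show u n - v n ≠ 0; rw [hu]; simpa using hv)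
    (key x hx) (key z hz)
  have h1 := hc n le_rfl
  have h2 := hc t ht
  simp only [hu, hvt, zero_add, add_zero, zero_sub, sub_zero] at h1 h2
  have h3 : c = -1 := by
    have h4 : (c + 1) * v n = 0 := by linear_combination -h1
    exact eq_neg_of_add_eq_zero_left ((mul_eq_zero.1 h4).resolve_right hv)
  have h5 : c = 1 := by
    have h4 : (c - 1) * u t = 0 := by linear_combination -h2
    exact sub_eq_zero.1 ((mul_eq_zero.1 h4).resolve_right hut)
  rw [h3] at h5
  norm_num at h5

/-- Every index below `n` is joined to `n` by one of the windows. -/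
lemma nec_G (hd : Determining n x z) {j : ℕ} (hj : j < n) : x n * x j ≠ 0 ∨ z n * z j ≠ 0 := by
  by_contra hcon
  push Not at hcon
  obtain ⟨h1, h2⟩ := hcon
  have key : ∀ w : ℕ → ℂ, w n * w j = 0 → ∀ ω : ℝ,
      (poly n (fun k => sg j 1 k * w k) (Complex.exp (ω * Complex.I)) *
      starRingEnd ℂ (poly n (fun k => sg n 1 k * w k) (Complex.exp (ω * Complex.I)))).re = 0 := by
    intro w hw ω
    rw [poly_sg hj.le, poly_sg le_rfl]
    rcases mul_eq_zero.1 hw with h | h
    · rw [h]; simp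
    · rw [h]; simp
  exact orth hd (sg j 1) (sg n 1) (sg_ne hj.ne' 1) (by rw [sg_self]; exact one_ne_zero) hj.le
    (by rw [sg_self]; exact one_ne_zero) (sg_ne hj.ne 1) (key x h1) (key z h2)

lemma nec_A (hd : Determining n x z) {j : ℕ} (hj : j < n) :
    ‖x j‖ * ‖z n‖ ≠ ‖z j‖ * ‖x n‖ := by
  intro heq
  -- a positive factor `c` with `‖x j‖ = c ‖x n‖`, `‖z j‖ = c ‖z n‖`
  obtain ⟨c, hc, h1, h2⟩ : ∃ c : ℝ, 0 < c ∧ ‖x j‖ = c * ‖x n‖ ∧ ‖z j‖ = c * ‖z n‖ := by
    rcases nec_G hd hj with h | h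
    · have hxn : 0 < ‖x n‖ := norm_pos_iff.2 (left_ne_zero_of_mul h)
      have hxj : 0 < ‖x j‖ := norm_pos_iff.2 (right_ne_zero_of_mul h)
      refine ⟨‖x j‖ / ‖x n‖, by positivity, by field_simp, ?_⟩
      field_simp
      linear_combination -heq
    · have hzn : 0 < ‖z n‖ := norm_pos_iff.2 (left_ne_zero_of_mul h)
      have hzj : 0 < ‖z j‖ := norm_pos_iff.2 (right_ne_zero_of_mul h)
      refine ⟨‖z j‖ / ‖z n‖, by positivity, ?_, by field_simp⟩
      field_simp
      linear_combination heq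
  have key : ∀ w : ℕ → ℂ, ‖w j‖ = c * ‖w n‖ → ∀ ω,
      specMag n (fun k => sg j 1 k * w k) ω = specMag n (fun k => sg n (c : ℂ) k * w k) ω := by
    intro w hw ω
    unfold specMag
    rw [poly_sg hj.le, poly_sg le_rfl, norm_mul, norm_mul, norm_mul, norm_mul, norm_pow, norm_pow,
      norm_exp_I, hw, Complex.norm_real, Real.norm_of_nonneg hc.le]
    simp
  exact hyper hd (sg j 1) (sg n (c : ℂ)) (sg_ne hj.ne' 1)
    (by rw [sg_self]; exact_mod_cast hc.ne') hj.le (by rw [sg_self]; exact one_ne_zero)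
    (sg_ne hj.ne _) (key x h1) (key z h2)

/-- two indices, one seen only by `x`, the other only by `z` -/
lemma nec_B0' (hd : Determining n x z) {k i : ℕ} (hk : k < n) (hi : i < n) (hik : i ≠ k)
    (hxk : x k ≠ 0) (hxi : x i = 0) (hzi : z i ≠ 0) (hzk : z k = 0) : False := by
  set α : ℝ := ‖x n‖ / ‖x k‖ with hα
  set β : ℝ := ‖z n‖ / ‖z i‖ with hβ
  have hxn : x n ≠ 0 := by
    rcases nec_G hd hk with h | h
    · exact left_ne_zero_of_mul h
    · rw [hzk, mul_zero] at h; exact absurd rfl h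
  have hxk' : 0 < ‖x k‖ := norm_pos_iff.2 hxk
  have hzi' : 0 < ‖z i‖ := norm_pos_iff.2 hzi
  have hxn' : 0 < ‖x n‖ := norm_pos_iff.2 hxn
  have hαp : 0 < α := div_pos hxn' hxk'
  have hsplit : ∀ (w : ℕ → ℂ) (ζ : ℂ), poly n (fun l => (sg k (α : ℂ) l + sg i (β : ℂ) l) * w l) ζ =
      α * w k * ζ ^ k + β * w i * ζ ^ i := by
    intro w ζ
    rw [← poly_sg hk.le (α : ℂ) w ζ, ← poly_sg hi.le (β : ℂ) w ζ, ← poly_add]
    congr 1
    funext l
    ring
  have hx' : ∀ ω, specMag n (fun l => (sg k (α : ℂ) l + sg i (β : ℂ) l) * x l) ω =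
      specMag n (fun l => sg n 1 l * x l) ω := by
    intro ω
    unfold specMag
    rw [hsplit, poly_sg le_rfl, hxi, mul_zero, zero_mul, add_zero, norm_mul, norm_mul, norm_mul,
      norm_mul, norm_pow, norm_pow, norm_exp_I, Complex.norm_real, Real.norm_of_nonneg hαp.le]
    rw [hα]
    field_simp
    simp
  have hz' : ∀ ω, specMag n (fun l => (sg k (α : ℂ) l + sg i (β : ℂ) l) * z l) ω =
      specMag n (fun l => sg n 1 l * z l) ω := by
    intro ω
    unfold specMag
    rw [hsplit, poly_sg le_rfl, hzk, mul_zero, zero_mul, zero_add, norm_mul, norm_mul, norm_mul,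
      norm_mul, norm_pow, norm_pow, norm_exp_I, Complex.norm_real,
      Real.norm_of_nonneg (div_nonneg (norm_nonneg _) (norm_nonneg _))]
    have hzi'' : ‖z i‖ ≠ 0 := hzi'.ne'
    rw [div_mul_cancel₀ _ hzi'']
    simp
  refine hyper hd (fun l => sg k (α : ℂ) l + sg i (β : ℂ) l) (sg n 1) ?_
    (by rw [sg_self]; exact one_ne_zero) hk.le ?_ (sg_ne hk.ne _) hx' hz'
  · show sg k (α : ℂ) n + sg i (β : ℂ) n = 0
    rw [sg_ne hk.ne', sg_ne hi.ne', add_zero]
  · show sg k (α : ℂ) k + sg i (β : ℂ) k ≠ 0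
    rw [sg_self, sg_ne hik.symm, add_zero]
    exact_mod_cast hαp.ne'

lemma nec_B0 (hd : Determining n x z) {k i : ℕ} (hk : k < n) (hi : i < n) (hik : i ≠ k)
    (h1 : x k * x i = 0) (h2 : z k * z i = 0) : False := by
  have hGk := nec_G hd hk
  have hGi := nec_G hd hi
  by_cases hxk : x k = 0
  · have hzk : z k ≠ 0 := by
      rcases hGk with h | h
      · rw [hxk, mul_zero] at h; exact absurd rfl h
      · exact right_ne_zero_of_mul h
    have hzi : z i = 0 := (mul_eq_zero.1 h2).resolve_left hzk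
    have hxi : x i ≠ 0 := by
      rcases hGi with h | h
      · exact right_ne_zero_of_mul h
      · rw [hzi, mul_zero] at h; exact absurd rfl h
    exact nec_B0' hd.symm hk hi hik hzk hzi hxi hxk
  · have hxi : x i = 0 := (mul_eq_zero.1 h1).resolve_left hxk
    have hzi : z i ≠ 0 := by
      rcases hGi with h | h
      · rw [hxi, mul_zero] at h; exact absurd rfl h
      · exact right_ne_zero_of_mul h
    have hzk : z k = 0 := (mul_eq_zero.1 h2).resolve_right hzi
    exact nec_B0' hd hk hi hik hxk hxi hzi hzk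

/-- overlapping pairs -/
lemma nec_B1 (hd : Determining n x z) {i k : ℕ} (hik : i < k) (hkn : k < n) (hmid : n - k = k - i)
    {c : ℂ} (hc : c ≠ 0) (h1 : x k * starRingEnd ℂ (x i) = c * (x n * starRingEnd ℂ (x k)))
    (h2 : z k * starRingEnd ℂ (z i) = c * (z n * starRingEnd ℂ (z k))) : False := by
  have hsplit : ∀ (w : ℕ → ℂ) (ζ : ℂ), poly n (fun l => (sg i 1 l + sg n (-c) l) * w l) ζ =
      w i * ζ ^ i - c * w n * ζ ^ n := by
    intro w ζ
    have h3 : w i * ζ ^ i - c * w n * ζ ^ n = 1 * w i * ζ ^ i + (-c) * w n * ζ ^ n := by ring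
    rw [h3, ← poly_sg (by omega : i ≤ n) 1 w ζ, ← poly_sg le_rfl (-c) w ζ, ← poly_add]
    congr 1
    funext l
    ring
  have key : ∀ w : ℕ → ℂ, w k * starRingEnd ℂ (w i) = c * (w n * starRingEnd ℂ (w k)) → ∀ ω : ℝ,
      (poly n (fun l => sg k 1 l * w l) (Complex.exp (ω * Complex.I)) * starRingEnd ℂ
      (poly n (fun l => (sg i 1 l + sg n (-c) l) * w l) (Complex.exp (ω * Complex.I)))).re = 0 := by
    intro w hw ω
    rw [hsplit, poly_sg hkn.le]
    have hζ := norm_exp_I ω
    set ζ := Complex.exp (ω * Complex.I)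
    have hζ' := conj_eq_inv hζ
    obtain ⟨m, hm1, hm2⟩ : ∃ m, k = i + m ∧ n = i + m + m := ⟨k - i, by omega, by omega⟩
    have h3 : ∀ l, ζ ^ l * starRingEnd ℂ ζ ^ l = 1 := by
      intro l
      rw [← mul_pow, hζ', one_pow]
    have h4 : 1 * w k * ζ ^ k * starRingEnd ℂ (w i * ζ ^ i - c * w n * ζ ^ n) =
        w k * starRingEnd ℂ (w i) * ζ ^ m -
          starRingEnd ℂ (c * (w n * starRingEnd ℂ (w k)) * ζ ^ m) := by
      simp only [map_sub, map_mul, map_pow, Complex.conj_conj]
      rw [hm1, hm2]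
      have e1 : ζ ^ (i + m) * starRingEnd ℂ ζ ^ i = ζ ^ m := by
        rw [pow_add, mul_right_comm, h3, one_mul]
      have e2 : ζ ^ (i + m) * starRingEnd ℂ ζ ^ (i + m + m) = starRingEnd ℂ ζ ^ m := by
        rw [pow_add (starRingEnd ℂ ζ) (i + m) m, ← mul_assoc, h3, one_mul]
      linear_combination w (i + m) * starRingEnd ℂ (w i) * e1 -
        w (i + m) * starRingEnd ℂ c * starRingEnd ℂ (w (i + m + m)) * e2
    rw [h4, ← hw, Complex.sub_re, Complex.conj_re, sub_self]
  refine orth hd (sg k 1) (fun l => sg i 1 l + sg n (-c) l) (sg_ne hkn.ne' 1) ?_ hkn.le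
    (by rw [sg_self]; exact one_ne_zero) ?_ (key x h1) (key z h2)
  · show sg i 1 n + sg n (-c) n ≠ 0
    rw [sg_ne (by omega : n ≠ i), sg_self, zero_add]
    exact neg_ne_zero.2 hc
  · show sg i 1 k + sg n (-c) k = 0
    rw [sg_ne (by omega : k ≠ i), sg_ne (by omega : k ≠ n), add_zero]

end

end Pool.Agent.V5helper29.WP
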