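import Pool.Agent.V5helper29.WP.Nec

/-! Window pairs: necessity of the criterion, disjoint pairs; the characterization. -/

set_option autoImplicit false

open Complex Finset

namespace Pool.Agent.V5helper29.WP

section

variable {n : ℕ} {x z : ℕ → ℂ}

/-- the norm conditions for one window -/
def Match (s t C wi wk wj wn : ℝ) : Prop :=
  (s * wi = t * wj ∧ wk * t = C * wn * s) ∨ (s * t * wi = C * wn ∧ wk = s * t * wj)

lemma Match.sq {s t C wi wk wj wn : ℝ} (hs : 0 < s) (ht : 0 < t)
    (h : Match s t C wi wk wj wn) :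
    (s * wi) ^ 2 + (wk / s) ^ 2 = (t * wj) ^ 2 + (C * wn / t) ^ 2 := by
  rcases h with ⟨h1, h2⟩ | ⟨h1, h2⟩
  · have h3 : wk / s = C * wn / t := by
      field_simp
      linear_combination h2
    rw [h1, h3]
  · have h3 : s * wi = C * wn / t := by
      field_simp
      linear_combination h1
    have h4 : wk / s = t * wj := by
      field_simp
      linear_combination h2
    rw [h3, h4]; ring

lemma nec_B2core (hd : Determining n x z) {i k j m : ℕ} (hm : 1 ≤ m) (hk : k = i + m)
    (hn : n = j + m) (hkn : k < n) (hkj : k ≠ j) {c : ℂ} (hc : c ≠ 0) {s t : ℝ}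
    (hs : 0 < s) (ht : 0 < t)
    (hx : x k * starRingEnd ℂ (x i) = c * (x n * starRingEnd ℂ (x j)))
    (hz : z k * starRingEnd ℂ (z i) = c * (z n * starRingEnd ℂ (z j)))
    (hx' : Match s t ‖c‖ ‖x i‖ ‖x k‖ ‖x j‖ ‖x n‖)
    (hz' : Match s t ‖c‖ ‖z i‖ ‖z k‖ ‖z j‖ ‖z n‖) : False := by
  have key : ∀ w : ℕ → ℂ, w k * starRingEnd ℂ (w i) = c * (w n * starRingEnd ℂ (w j)) →
      Match s t ‖c‖ ‖w i‖ ‖w k‖ ‖w j‖ ‖w n‖ → ∀ ω,
      specMag n (fun l => (sg i (s : ℂ) l + sg k ((s : ℂ)⁻¹) l) * w l) ω =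
      specMag n (fun l => (sg j (t : ℂ) l + sg n (c / t) l) * w l) ω := by
    intro w hw hw' ω
    unfold specMag
    have hζ := norm_exp_I ω
    set ζ := Complex.exp (ω * Complex.I)
    have hζm : ‖ζ ^ m‖ = 1 := by rw [norm_pow, hζ, one_pow]
    have h1 : poly n (fun l => (sg i (s : ℂ) l + sg k ((s : ℂ)⁻¹) l) * w l) ζ =
        ζ ^ i * (s * w i + ((s : ℂ)⁻¹ * w k) * ζ ^ m) := by
      have h2 : ζ ^ i * (s * w i + ((s : ℂ)⁻¹ * w k) * ζ ^ m) =
          s * w i * ζ ^ i + (s : ℂ)⁻¹ * w k * ζ ^ k := by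
        rw [hk, pow_add]; ring
      rw [h2, ← poly_sg (by omega : i ≤ n) (s : ℂ) w ζ, ← poly_sg hkn.le ((s : ℂ)⁻¹) w ζ,
        ← poly_add]
      congr 1
      funext l
      ring
    have h3 : poly n (fun l => (sg j (t : ℂ) l + sg n (c / t) l) * w l) ζ =
        ζ ^ j * (t * w j + (c / t * w n) * ζ ^ m) := by
      have h2 : ζ ^ j * (t * w j + (c / t * w n) * ζ ^ m) =
          t * w j * ζ ^ j + c / t * w n * ζ ^ n := by
        rw [hn, pow_add]; ring
      rw [h2, ← poly_sg (by omega : j ≤ n) (t : ℂ) w ζ, ← poly_sg le_rfl (c / t) w ζ,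
        ← poly_add]
      congr 1
      funext l
      ring
    have hsC : (s : ℂ) ≠ 0 := by exact_mod_cast hs.ne'
    have htC : (t : ℂ) ≠ 0 := by exact_mod_cast ht.ne'
    rw [h1, h3, norm_mul, norm_mul, norm_pow, norm_pow, hζ, one_pow, one_pow, one_mul, one_mul]
    refine norm_lag hζm ?_ ?_
    · have h4 := hw'.sq hs ht
      rw [norm_mul, norm_mul, norm_mul, norm_mul, norm_div, norm_inv, Complex.norm_real,
        Complex.norm_real, Real.norm_of_nonneg hs.le, Real.norm_of_nonneg ht.le]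
      rw [← div_eq_inv_mul, div_mul_eq_mul_div]
      exact h4
    · rw [map_mul, map_mul, Complex.conj_ofReal, Complex.conj_ofReal]
      have h5 : (s : ℂ)⁻¹ * w k * (s * starRingEnd ℂ (w i)) = w k * starRingEnd ℂ (w i) := by
        field_simp
      have h6 : c / t * w n * (t * starRingEnd ℂ (w j)) = c * (w n * starRingEnd ℂ (w j)) := by
        field_simp
      rw [h5, h6, hw]
  refine hyper hd (fun l => sg i (s : ℂ) l + sg k ((s : ℂ)⁻¹) l)
    (fun l => sg j (t : ℂ) l + sg n (c / t) l) ?_ ?_ (by omega : i ≤ n) ?_ ?_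
    (key x hx hx') (key z hz hz')
  · show sg i (s : ℂ) n + sg k ((s : ℂ)⁻¹) n = 0
    rw [sg_ne (by omega : n ≠ i), sg_ne (by omega : n ≠ k), add_zero]
  · show sg j (t : ℂ) n + sg n (c / t) n ≠ 0
    rw [sg_ne (by omega : n ≠ j), sg_self, zero_add]
    exact div_ne_zero hc (by exact_mod_cast ht.ne')
  · show sg i (s : ℂ) i + sg k ((s : ℂ)⁻¹) i ≠ 0
    rw [sg_self, sg_ne (by omega : i ≠ k), add_zero]
    exact_mod_cast hs.ne'
  · show sg j (t : ℂ) i + sg n (c / t) i = 0
    rw [sg_ne (by omega : i ≠ j), sg_ne (by omega : i ≠ n), add_zero]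

/-- a zero of the second window in the upper half -/
lemma nec_B3 (hd : Determining n x z) {l : ℕ} (hl : l < n) (h2 : n ≤ 2 * l) (hz : z l = 0)
    (hx : x l ≠ 0) (hxn : x n ≠ 0) : False := by
  by_cases h : x (2 * l - n) = 0
  · exact nec_B0 hd hl (by omega : 2 * l - n < n) (by omega) (by rw [h, mul_zero])
      (by rw [hz, zero_mul])
  · refine nec_B1 hd (i := 2 * l - n) (k := l) (by omega) hl (by omega)
      (c := x l * starRingEnd ℂ (x (2 * l - n)) / (x n * starRingEnd ℂ (x l))) ?_ ?_ ?_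
    · exact div_ne_zero (mul_ne_zero hx ((map_ne_zero _).2 h))
        (mul_ne_zero hxn ((map_ne_zero _).2 hx))
    · rw [div_mul_cancel₀ _ (mul_ne_zero hxn ((map_ne_zero _).2 hx))]
    · rw [hz]; simp

lemma nec_B2 (hd : Determining n x z) {i k j m : ℕ} (hm : 1 ≤ m) (hk : k = i + m)
    (hn : n = j + m) (hkn : k < n) (hkj : k ≠ j) {c : ℂ} (hc : c ≠ 0)
    (hx : x k * starRingEnd ℂ (x i) = c * (x n * starRingEnd ℂ (x j)))
    (hz : z k * starRingEnd ℂ (z i) = c * (z n * starRingEnd ℂ (z j)))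
    (hxn : x n ≠ 0) (hxj : x j ≠ 0) : False := by
  have hprod : x k * starRingEnd ℂ (x i) ≠ 0 := by
    rw [hx]
    exact mul_ne_zero hc (mul_ne_zero hxn ((map_ne_zero _).2 hxj))
  have hxk : x k ≠ 0 := left_ne_zero_of_mul hprod
  have hxi : x i ≠ 0 := (map_ne_zero _).1 (right_ne_zero_of_mul hprod)
  have ci : 0 < ‖x i‖ := norm_pos_iff.2 hxi
  have ck : 0 < ‖x k‖ := norm_pos_iff.2 hxk
  have cj : 0 < ‖x j‖ := norm_pos_iff.2 hxj
  have cn : 0 < ‖x n‖ := norm_pos_iff.2 hxn
  have cc : 0 < ‖c‖ := norm_pos_iff.2 hc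
  have hxN : ‖x k‖ * ‖x i‖ = ‖c‖ * (‖x n‖ * ‖x j‖) := by
    have := congrArg norm hx
    simpa [norm_mul, RCLike.norm_conj] using this
  have hzN : ‖z k‖ * ‖z i‖ = ‖c‖ * (‖z n‖ * ‖z j‖) := by
    have := congrArg norm hz
    simpa [norm_mul, RCLike.norm_conj] using this
  have hzn : z n ≠ 0 := by
    intro h0
    have h1 : z k * starRingEnd ℂ (z i) = 0 := by rw [hz, h0]; ring
    rcases mul_eq_zero.1 h1 with h2 | h2
    · exact nec_A hd hkn (by rw [h0, h2]; simp)
    · exact nec_A hd (by omega : i < n) (by rw [h0, (map_eq_zero _).1 h2]; simp)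
  have dn : 0 < ‖z n‖ := norm_pos_iff.2 hzn
  by_cases hzj : z j = 0
  · -- `z j = 0`
    have h1 : z k * starRingEnd ℂ (z i) = 0 := by rw [hz, hzj]; simp
    rcases Nat.lt_or_ge (2 * j) n with h | h
    · by_cases hzk : z k = 0
      · exact nec_B3 hd hkn (by omega) hzk hxk hxn
      · have hzi : z i = 0 := (map_eq_zero _).1 ((mul_eq_zero.1 h1).resolve_left hzk)
        have dk : 0 < ‖z k‖ := norm_pos_iff.2 hzk
        set q : ℝ := ‖x n‖ * ‖z k‖ / (‖x i‖ * ‖z n‖) with hq
        have hqp : 0 < q := by positivity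
        set s : ℝ := Real.sqrt q with hs
        have hsp : 0 < s := Real.sqrt_pos.2 hqp
        have hss : s * s = q := Real.mul_self_sqrt hqp.le
        set t : ℝ := s * (‖c‖ * ‖z n‖ / ‖z k‖) with ht
        have htp : 0 < t := by positivity
        have hst : s * t = ‖c‖ * ‖x n‖ / ‖x i‖ := by
          rw [ht, ← mul_assoc, hss, hq]
          field_simp
        refine nec_B2core hd hm hk hn hkn hkj hc hsp htp hx hz (Or.inr ⟨?_, ?_⟩)
          (Or.inl ⟨?_, ?_⟩)
        · rw [hst]; field_simp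
        · rw [hst]
          field_simp
          linear_combination hxN
        · rw [hzi, hzj]; simp
        · rw [ht]; field_simp
    · exact nec_B3 hd (by omega : j < n) h hzj hxj hxn
  · have dj : 0 < ‖z j‖ := norm_pos_iff.2 hzj
    have hzprod : z k * starRingEnd ℂ (z i) ≠ 0 := by
      rw [hz]
      exact mul_ne_zero hc (mul_ne_zero hzn ((map_ne_zero _).2 hzj))
    have dk : 0 < ‖z k‖ := norm_pos_iff.2 (left_ne_zero_of_mul hzprod)
    have di : 0 < ‖z i‖ := norm_pos_iff.2 ((map_ne_zero _).1 (right_ne_zero_of_mul hzprod))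
    set q : ℝ := ‖c‖ * ‖z n‖ * ‖x j‖ / (‖z i‖ * ‖x i‖) with hq
    have hqp : 0 < q := by positivity
    set s : ℝ := Real.sqrt q with hs
    have hsp : 0 < s := Real.sqrt_pos.2 hqp
    have hss : s * s = q := Real.mul_self_sqrt hqp.le
    set t : ℝ := s * (‖x i‖ / ‖x j‖) with ht
    have htp : 0 < t := by positivity
    have hst : s * t = ‖c‖ * ‖z n‖ / ‖z i‖ := by
      rw [ht, ← mul_assoc, hss, hq]
      field_simp
    refine nec_B2core hd hm hk hn hkn hkj hc hsp htp hx hz (Or.inl ⟨?_, ?_⟩)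
      (Or.inr ⟨?_, ?_⟩)
    · rw [ht]; field_simp
    · rw [ht]
      field_simp
      linear_combination hxN
    · rw [hst]; field_simp
    · rw [hst]
      field_simp
      linear_combination hzN

/-- The criterion. -/
theorem characterization (hn : 1 ≤ n) (x z : ℕ → ℂ) : Determining n x z ↔
    (∀ m k, m ≤ k → k < n →
      x k * starRingEnd ℂ (x (k - m)) * (z n * starRingEnd ℂ (z (n - m))) ≠
      z k * starRingEnd ℂ (z (k - m)) * (x n * starRingEnd ℂ (x (n - m)))) ∧
    (x n * x 0 ≠ 0 ∨ z n * z 0 ≠ 0) := by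
  constructor
  · intro hd
    refine ⟨?_, nec_G hd (by omega)⟩
    intro m k hmk hkn heq
    rcases Nat.eq_zero_or_pos m with h0 | hm
    · subst h0
      simp only [Nat.sub_zero, Complex.mul_conj] at heq
      apply nec_A hd hkn
      have h1 : Complex.normSq (x k) * Complex.normSq (z n) =
          Complex.normSq (z k) * Complex.normSq (x n) := by exact_mod_cast heq
      simp only [Complex.normSq_eq_norm_sq] at h1
      rw [← mul_pow, ← mul_pow] at h1
      exact (pow_left_inj₀ (by positivity) (by positivity) two_ne_zero).1 h1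
    · -- a common factor `c`
      obtain ⟨c, hcx, hcz⟩ : ∃ c : ℂ,
          x k * starRingEnd ℂ (x (k - m)) = c * (x n * starRingEnd ℂ (x (n - m))) ∧
          z k * starRingEnd ℂ (z (k - m)) = c * (z n * starRingEnd ℂ (z (n - m))) := by
        rcases nec_G hd (by omega : n - m < n) with h | h
        · have h1 : x n * starRingEnd ℂ (x (n - m)) ≠ 0 :=
            mul_ne_zero (left_ne_zero_of_mul h) ((map_ne_zero _).2 (right_ne_zero_of_mul h))
          refine ⟨x k * starRingEnd ℂ (x (k - m)) / (x n * starRingEnd ℂ (x (n - m))),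
            by rw [div_mul_cancel₀ _ h1], ?_⟩
          rw [div_mul_eq_mul_div, eq_div_iff h1]
          exact heq.symm
        · have h1 : z n * starRingEnd ℂ (z (n - m)) ≠ 0 :=
            mul_ne_zero (left_ne_zero_of_mul h) ((map_ne_zero _).2 (right_ne_zero_of_mul h))
          refine ⟨z k * starRingEnd ℂ (z (k - m)) / (z n * starRingEnd ℂ (z (n - m))), ?_,
            by rw [div_mul_cancel₀ _ h1]⟩
          rw [div_mul_eq_mul_div, eq_div_iff h1]
          exact heq
      by_cases hc : c = 0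
      · rw [hc, zero_mul] at hcx hcz
        refine nec_B0 hd hkn (by omega : k - m < n) (by omega) ?_ ?_
        · rcases mul_eq_zero.1 hcx with h | h
          · rw [h, zero_mul]
          · rw [(map_eq_zero _).1 h, mul_zero]
        · rcases mul_eq_zero.1 hcz with h | h
          · rw [h, zero_mul]
          · rw [(map_eq_zero _).1 h, mul_zero]
      · by_cases hkj : k = n - m
        · rw [← hkj] at hcx hcz
          exact nec_B1 hd (by omega : k - m < k) hkn (by omega) hc hcx hcz
        · rcases nec_G hd (by omega : n - m < n) with h | h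
          · exact nec_B2 hd hm (by omega : k = (k - m) + m) (by omega : n = (n - m) + m) hkn hkj
              hc hcx hcz (left_ne_zero_of_mul h) (right_ne_zero_of_mul h)
          · exact nec_B2 hd.symm hm (by omega : k = (k - m) + m) (by omega : n = (n - m) + m) hkn
              hkj hc hcz hcx (left_ne_zero_of_mul h) (right_ne_zero_of_mul h)
  · rintro ⟨h1, h2⟩ a b ha hb hx hz
    exact suff (fun m k hmk hkn => sub_ne_zero.2 (h1 m k hmk hkn)) h2 ha hb hx hz

end

end Pool.Agent.V5helper29.WP
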