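import Pool.Agent.V5helper29.WP.Defs

/-! Window pairs: sufficiency of the criterion. -/

set_option autoImplicit false

open Complex Finset

namespace Pool.Agent.V5helper29.WP

/-- the two products at lag `m` -/
def D (n : ℕ) (x z : ℕ → ℂ) (m k : ℕ) : ℂ :=
  x k * starRingEnd ℂ (x (k - m)) * (z n * starRingEnd ℂ (z (n - m))) -
    z k * starRingEnd ℂ (z (k - m)) * (x n * starRingEnd ℂ (x (n - m)))

/-- the Hermitian matrix `a a* - b b*` -/
def E (a b : ℕ → ℂ) (k l : ℕ) : ℂ :=
  a k * starRingEnd ℂ (a l) - b k * starRingEnd ℂ (b l)

lemma minor (a b : ℕ → ℂ) {r1 r2 r3 c1 c2 c3 : ℕ} (h21 : E a b r2 c1 = 0) (h31 : E a b r3 c1 = 0)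
    (h32 : E a b r3 c2 = 0) : E a b r1 c1 * E a b r2 c2 * E a b r3 c3 = 0 := by
  have h : E a b r1 c1 * (E a b r2 c2 * E a b r3 c3 - E a b r2 c3 * E a b r3 c2) -
      E a b r1 c2 * (E a b r2 c1 * E a b r3 c3 - E a b r2 c3 * E a b r3 c1) +
      E a b r1 c3 * (E a b r2 c1 * E a b r3 c2 - E a b r2 c2 * E a b r3 c1) = 0 := by
    unfold E; ring
  rw [h21, h31, h32] at h
  linear_combination h

lemma lag_sum {n : ℕ} {x a b : ℕ → ℂ}
    (h : ∀ ω, specMag n (fun k => a k * x k) ω = specMag n (fun k => b k * x k) ω) (m : ℕ) :
    (∑ k ∈ range (n + 1), if m ≤ k then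
      E a b k (k - m) * (x k * starRingEnd ℂ (x (k - m))) else 0) = 0 := by
  have h1 := autocorr h m
  rw [← sub_eq_zero, ← sum_sub_distrib] at h1
  refine Eq.trans ?_ h1
  refine sum_congr rfl fun k _ => ?_
  split_ifs
  · unfold E
    rw [map_mul, map_mul]
    ring
  · ring

/-- Sufficiency. -/
theorem suff {n : ℕ} {x z : ℕ → ℂ}
    (hD : ∀ m k, m ≤ k → k < n → D n x z m k ≠ 0)
    (h0 : x n * x 0 ≠ 0 ∨ z n * z 0 ≠ 0) {a b : ℕ → ℂ} (ha : a n ≠ 0) (hb : b n ≠ 0)
    (hx : ∀ ω, specMag n (fun k => a k * x k) ω = specMag n (fun k => b k * x k) ω)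
    (hz : ∀ ω, specMag n (fun k => a k * z k) ω = specMag n (fun k => b k * z k) ω) :
    ∃ c : ℂ, ‖c‖ = 1 ∧ ∀ k, k ≤ n → b k = c * a k := by
  -- row `n` of the matrix vanishes
  have hrow : ∀ c, c ≤ n → E a b n c = 0 := by
    by_contra hcon
    push Not at hcon
    obtain ⟨c0, hc0, hE⟩ := hcon
    -- all lags vanish
    have hP : ∀ d m, m + d = n → ∀ k, k ≤ n → m ≤ k → E a b k (k - m) = 0 := by
      intro d
      induction d using Nat.strong_induction_on with
      | _ d ih =>
        intro m hmd
        have hF : ∀ r c, r ≤ n → c + m < r → E a b r c = 0 := by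
          intro r c hr hc
          have h1 := ih (n - (r - c)) (by omega) (r - c) (by omega) r hr (by omega)
          rwa [Nat.sub_sub_self (by omega)] at h1
        -- at most one nonzero entry with `k < n`
        have hone : ∀ k1 k2, m ≤ k1 → k1 < k2 → k2 < n → E a b k1 (k1 - m) ≠ 0 →
            E a b k2 (k2 - m) = 0 := by
          intro k1 k2 h1 h2 h3 h4
          by_contra h5
          have h6 := minor a b (r1 := k1) (r2 := k2) (r3 := n) (c1 := k1 - m) (c2 := k2 - m)
            (c3 := c0) (hF _ _ (by omega) (by omega)) (hF _ _ le_rfl (by omega))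
            (hF _ _ le_rfl (by omega))
          exact mul_ne_zero (mul_ne_zero h4 h5) hE h6
        -- no nonzero entry with `k < n`
        have hsum : (∑ k ∈ range n, if m ≤ k then E a b k (k - m) * D n x z m k else 0) = 0 := by
          have h1 := lag_sum hx m
          have h2 := lag_sum hz m
          have h3 : (∑ k ∈ range (n + 1), if m ≤ k then E a b k (k - m) * D n x z m k else 0) =
              (∑ k ∈ range (n + 1), if m ≤ k then
                E a b k (k - m) * (x k * starRingEnd ℂ (x (k - m))) else 0) *
                (z n * starRingEnd ℂ (z (n - m))) -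
              (∑ k ∈ range (n + 1), if m ≤ k then
                E a b k (k - m) * (z k * starRingEnd ℂ (z (k - m))) else 0) *
                (x n * starRingEnd ℂ (x (n - m))) := by
            rw [sum_mul, sum_mul, ← sum_sub_distrib]
            refine sum_congr rfl fun k _ => ?_
            split_ifs
            · unfold D; ring
            · ring
          rw [h1, h2, zero_mul, zero_mul, sub_zero, sum_range_succ] at h3
          have h4 : D n x z m n = 0 := by unfold D; ring
          rw [h4, mul_zero, ite_self, add_zero] at h3
          exact h3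
        have hlt : ∀ k, m ≤ k → k < n → E a b k (k - m) = 0 := by
          intro k hk hkn
          by_contra hne
          rw [sum_eq_single k] at hsum
          · rw [if_pos hk] at hsum
            exact mul_ne_zero hne (hD m k hk hkn) hsum
          · intro l hl hlk
            have hl' : l < n := mem_range.1 hl
            split_ifs with h1
            · have h2 : E a b l (l - m) = 0 := by
                rcases lt_or_gt_of_ne hlk with h3 | h3
                · by_contra h4
                  exact hne (hone l k h1 h3 hkn h4)
                · exact hone k l hk h3 hl' hne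
              rw [h2, zero_mul]
            · rfl
          · intro h
            exact absurd (mem_range.2 hkn) h
        -- the entry with `k = n`
        have hn : E a b n (n - m) = 0 := by
          by_contra hne
          have key : ∀ w : ℕ → ℂ,
              (∀ ω, specMag n (fun k => a k * w k) ω = specMag n (fun k => b k * w k) ω) →
              w n * starRingEnd ℂ (w (n - m)) = 0 := by
            intro w hw
            have h1 := lag_sum hw m
            rw [sum_range_succ, if_pos (by omega : m ≤ n)] at h1
            have h2 : (∑ k ∈ range n, if m ≤ k then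
                E a b k (k - m) * (w k * starRingEnd ℂ (w (k - m))) else 0) = 0 := by
              refine sum_eq_zero fun k hk => ?_
              split_ifs with h3
              · rw [hlt k h3 (mem_range.1 hk), zero_mul]
              · rfl
            rw [h2, zero_add] at h1
            exact (mul_eq_zero.1 h1).resolve_left hne
          have hx' := key x hx
          have hz' := key z hz
          rcases Nat.lt_or_ge m n with hmn | hmn
          · apply hD m m le_rfl hmn
            unfold D
            rw [hx', hz']; ring
          · have hm : m = n := by omega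
            rw [hm, Nat.sub_self] at hx' hz'
            rcases h0 with h | h
            · apply h
              rcases mul_eq_zero.1 hx' with h1 | h1
              · rw [h1, zero_mul]
              · rw [(map_eq_zero _).1 h1, mul_zero]
            · apply h
              rcases mul_eq_zero.1 hz' with h1 | h1
              · rw [h1, zero_mul]
              · rw [(map_eq_zero _).1 h1, mul_zero]
        intro k hk hmk
        rcases Nat.lt_or_ge k n with h | h
        · exact hlt k hmk h
        · have : k = n := by omega
          rw [this]; exact hn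
    have h1 := hP c0 (n - c0) (by omega) n le_rfl (by omega)
    rw [Nat.sub_sub_self hc0] at h1
    exact hE h1
  have hrow' : ∀ c, c ≤ n → a n * starRingEnd ℂ (a c) = b n * starRingEnd ℂ (b c) :=
    fun c hc => sub_eq_zero.1 (hrow c hc)
  have hnorm : ‖a n‖ = ‖b n‖ := by
    have h1 := congrArg norm (hrow' n le_rfl)
    rw [norm_mul, norm_mul, RCLike.norm_conj, RCLike.norm_conj] at h1
    nlinarith [norm_nonneg (a n), norm_nonneg (b n), norm_pos_iff.2 ha, norm_pos_iff.2 hb]
  refine ⟨b n / a n, ?_, ?_⟩
  · rw [norm_div, hnorm, div_self (norm_ne_zero_iff.2 hb)]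
  · intro k hk
    have h1 := congrArg (starRingEnd ℂ) (hrow' k hk)
    rw [map_mul, map_mul, Complex.conj_conj, Complex.conj_conj] at h1
    have h2 : a n * starRingEnd ℂ (a n) = b n * starRingEnd ℂ (b n) := hrow' n le_rfl
    have hb' : starRingEnd ℂ (b n) ≠ 0 := (map_ne_zero _).2 hb
    field_simp
    have h3 : starRingEnd ℂ (b n) * (b k * a n - b n * a k) = 0 := by
      have h4 : starRingEnd ℂ (b n) * (b k * a n - b n * a k) =
        a n * (starRingEnd ℂ (b n) * b k) - (b n * starRingEnd ℂ (b n)) * a k := by ring
      rw [h4, ← h1, ← h2]; ring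
    have h5 := (mul_eq_zero.1 h3).resolve_left hb'
    linear_combination h5

end Pool.Agent.V5helper29.WP
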